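import Pool.Agent.H986.PL.Fin

/-!
# Notes for a later attempt: `r_n = C_n / μ ^ n → ∞` on `ℤ²` (that is, `P_n → 0`)

Nothing in this file is proved beyond the imported modules; it is a plan on paper (helper986).
Notation: `U_n` uniform law on the `n`-step self-avoiding walks (SAW) from `0`;
`P(n,m) = r_{n+m} / (r_n r_m)` = probability that independent `α ~ U_n`, `β ~ U_m` avoid each other;
`α * β` concatenation (SAW iff the reversal `rev α` avoids `β`).

Available in Lean (this run and the library):
* three arms: `P_3(n,m,k) ≤ C N^(-c / log log N) √P(n,m)` (`Pool.Agent.H986.TA.three`);
* a SAW avoids both `w` and `-w` with probability `≤ C N^(-c / log log N)` (`PL.all2`, `PL.x2_le`),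
  hence `P_n ≤ 3/8 + o(1)`, `P(n,m) ≤ 1/2 + o(1)`, `r_n ≥ 8/3 - o(1)`;
* planar topology: `MT.sepJ` (a path from `z` to `-z` and its negative separate `0` from infinity),
  `PL.top_list` (the longest of three walks cannot avoid `b, -b, c, -c` if `b` meets `c` and `-c`);
* two walks from starting points at distance `d` meet within `10^6 d^4` steps with probability
  `≥ 1/8`, also conditionally on any events invariant under rotations (`MT.part_one`, `MT.det`);
* `C_n ≤ μ^n exp (K log² n)`, almost power law upper bound for the size (`n^(1 - c/log log n)`).

## The bounded world
If `r_n` does not tend to infinity along any subsequence of scales in the strong sense one is led to
the case `r_n ≤ C` for all `n` (if `P_n ≥ 1/4 + δ` for all large `n` then `r_n < 4` for all large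
`n`, because `r_{2n} ≥ (1/4 + δ) r_n²` would give exponential growth).  In the bounded world:

1. *Bounded densities.*  The joint law of `j` consecutive pieces of a SAW has a density `≤ C^j` with
   respect to independent SAWs.  Entropy: the mutual information of past and future is `≤ 2 log C`.
2. *Finitely many phases.*  A stationary two-sided SAW obtained as a limit has entropy `log μ`
   (maximal).  Each ergodic measure `Q` of maximal entropy has `H_n(Q) ≥ n log μ`, while
   `log C_n ≤ n log μ + log C`; so there are at most `C` of them; past and future have finite mutual
   information, so `Q` is (up to a finite cyclic factor) weak Bernoulli: pieces at bounded distance
   are asymptotically independent in total variation.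
3. *Opposite ends.*  For independent `F ~ Q` (future) and `G ~ Q` (reversed past): with probability
   `→ 1` (as `n → ∞`) they avoid each other after a shift by at most `n`.
4. *No phase is invariant under the rotation by 180 degrees.*  Suppose `-Q = Q`; `±F` avoid `±G`.
   If `F` crosses `-F` (or an independent copy `F'` and `-F'`) at a large scale there is a loop
   around the start in `±F ∪ ±F'`, similarly for `G`; the longest curve cannot be enclosed by the
   loop of the other family (`top_list`).  If `F` does not cross `F'`, then the cyclic order of
   `(F, F', G)` is a tail event, hence trivial, but the exchange of `F`, `F'` reverses it.
   Hence the number of phases is a multiple of 4 and the limit of `r_n` is `≥ 4`.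
   Finite version: types of starts `T(α)` = class of the walks which avoid `α`; with
   `π` = law of `(T(α), T(rev α))` and `a` = avoidance matrix of types, `π a π = P π`, so that
   `M = π a / P` is idempotent: blocks `C` with `w_C ρ_C = P`, start and end types independent
   inside a block, number of blocks `≤ 1/P`.  With fewer than 4 blocks all blocks are invariant
   under `-1`, and the macroscopic shape of a walk is independent of its microscopic type given the
   block; then use the 8-pair theorem (`MT.det`) or the cyclic order argument.
5. *Phases without symmetry (a ballistic picture) are excluded by the size bound.*  Under `Q` the
   increments at a large scale are asymptotically i.i.d. with mean exactly `n v`; `v = 0` by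
   sub-ballisticity.  (a) Second moments: `F` and `G` are independent walks with Green's functions
   `g(x)` and `g(-x)`; in the plane `Σ g_n(x) g_n(-x) ≥ c` as soon as the law of `F(n)` and its
   reflection overlap macroscopically, and then they meet with probability `≥ c` at every scale, a
   contradiction.  (b) The closed semigroup generated by the support of the increments at a scale
   contains elements near `0` unless the support lies in an open half-plane (simultaneous
   Diophantine approximation).  So at each large scale the displacement lies in a cone up to a
   small probability `ε`.  (c) The mean is zero, so rare large backward displacements must
   compensate; each of them costs mutual information `≥ log (1/δ)` between past and future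
   (the walk must then avoid its own past, which has probability `δ`), and the total information is
   `≤ 2 log C`: the sum over scales of the probabilities of backward displacements is small,
   which contradicts mean zero.
   The delicate point is the quantitative form of (c) (rare events against total variation errors).

The single scale constraints (planarity, rotations, no three arms) cannot give less than `3/8`:
eight directions at multiples of 45 degrees, two walks avoid each other iff their angle is at least
135 degrees.  The relation `π a π = P π` excludes this example only together with step 4.
-/

namespace Pool.Agent.H986.PL

end Pool.Agent.H986.PL
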